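import Pool.Agent.W2helper37.SG.Stm3
import Pool.Agent.W2helper12.SG.Net

/-!
# Project SG part 2, piece NTO: the odd part of the action and the operator `Z` are algebraic
-/

set_option autoImplicit false
set_option linter.unusedSectionVars false
set_option linter.unusedSimpArgs false
set_option backward.isDefEq.respectTransparency false
set_option backward.defeqAttrib.useBackward true

open CategoryTheory Limits MonoidalCategory
open Pool.Agent.Y112.SR Pool.Agent.Y112.KD Pool.Agent.Y112.SC
open Pool.Agent.W2helper37.SG Pool.Agent.W2helper12.SG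

namespace Pool.Agent.W2helper46.SG

universe v u w

theorem p_nto : P_NTO.{v, u, w} := by
  intro hbrx C _ _ _ _ _ _ _ _ K _ R M X ι _ _ o e he a A hAre hApar g hg
  have hK := R_charZero R
  have h2 : (2 : K) ≠ 0 := two_ne_zero
  have hra : R.H.map a = mat R e A := hAre
  set N : ι → ι → Module.End K (R.H.obj X) := fun k i => if o k ≠ o i then A k i else 0 with hN
  have hpp : (R.par X).hom * (R.par X).hom = 1 := by
    have := congrArg ModuleCat.Hom.hom (R.par_sq X)
    exact this
  have hν : R.H.map ((2⁻¹ : ℚ) • (a - (M ◁ g) ≫ a ≫ (M ◁ g))) = mat R e N := by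
    rw [R_smul, Functor.map_sub, Functor.map_comp, Functor.map_comp,
      map_whiskerLeft_par R g hg, hra, mat_conj, mat_sub, mat_smul]
    congr 1
    funext k i
    have h3 : (R.par X).hom * A k i * (R.par X).hom = (sg K (o k) * sg K (o i)) • A k i := by
      rw [hApar k i, smul_mul_assoc, mul_assoc, hpp, mul_one]
    rw [h3, hN]
    push_cast
    by_cases h : o k = o i
    · simp only [h, sg_sq, one_smul, sub_self, smul_zero, ne_eq, not_true_eq_false, if_false]
    · have h4 : sg K (o k) * sg K (o i) = -1 := by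
        revert h
        cases o k <;> cases o i <;> simp [sg]
      rw [h4, if_pos h, neg_one_smul, sub_neg_eq_add, ← two_smul K, smul_smul, inv_mul_cancel₀ h2,
        one_smul]
  refine ⟨(2⁻¹ : ℚ) • (a - (M ◁ g) ≫ a ≫ (M ◁ g)), ptr ((β_ X M).hom ≫
    (((2⁻¹ : ℚ) • (a - (M ◁ g) ≫ a ≫ (M ◁ g))) ≫ ((2⁻¹ : ℚ) • (a - (M ◁ g) ≫ a ≫ (M ◁ g)))) ≫
    (β_ M X).hom), hν, ?_⟩
  generalize (2⁻¹ : ℚ) • (a - (M ◁ g) ≫ a ≫ (M ◁ g)) = ν at hν ⊢
  have hNpar : ∀ k i, (R.par X).hom * N k i = (sg K (o k) * sg K (o i)) • (N k i * (R.par X).hom) := by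
    intro k i
    rw [hN]
    by_cases h : o k = o i
    · simp only [h, ne_eq, not_true_eq_false, if_false, mul_zero, zero_mul, smul_zero]
    · simp only [ne_eq, h, not_false_eq_true, if_true]
      exact hApar k i
  set W : ι → ι → Module.End K (R.H.obj X) := fun l i => ∑ k, N l k * N k i with hW
  have hW0 : ∀ l i, o l ≠ o i → W l i = 0 := by
    intro l i hli
    rw [hW]
    refine Finset.sum_eq_zero fun k _ => ?_
    rw [hN]
    by_cases h1 : o l = o k
    · simp [h1]
    · have h3 : o k = o i := by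
        revert h1 hli
        cases o l <;> cases o k <;> cases o i <;> simp
      simp [h3]
  have hWp : ∀ l i, o l = o i → (R.par X).hom * W l i = W l i * (R.par X).hom := by
    intro l i hli
    rw [hW]
    simp only [Finset.mul_sum, Finset.sum_mul]
    refine Finset.sum_congr rfl fun k _ => ?_
    rw [← mul_assoc, hNpar, smul_mul_assoc, mul_assoc, hNpar, mul_smul_comm, smul_smul]
    have h3 : sg K (o l) * sg K (o k) * (sg K (o k) * sg K (o i)) = 1 := by
      rw [hli]
      calc sg K (o i) * sg K (o k) * (sg K (o k) * sg K (o i)) =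
          (sg K (o i) * sg K (o i)) * (sg K (o k) * sg K (o k)) := by ring
        _ = 1 := by rw [sg_sq, sg_sq, one_mul]
    rw [h3, one_smul, mul_assoc]
  have hterm : ∀ i l, R.H.map (β_ X M).hom ≫ bx R (e i l) (ModuleCat.ofHom (W l i)) ≫
      R.H.map (β_ M X).hom = bx R (ModuleCat.ofHom (W l i)) (e i l) := by
    intro i l
    by_cases hli : o l = o i
    · refine (hbrx C K R X M (ModuleCat.ofHom (W l i)) (e i l)).1 ?_ ?_
      · apply ModuleCat.hom_ext
        exact hWp l i hli
      · rw [e_par R he, par_e R he, hli]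
    · rw [hW0 l i hli]
      have h3 : (ModuleCat.ofHom (0 : Module.End K (R.H.obj X)) : R.H.obj X ⟶ R.H.obj X) = 0 := rfl
      have h4 : bx R (e i l) (0 : R.H.obj X ⟶ R.H.obj X) = 0 := by
        have := bx_smul_right R (0 : K) (e i l) (0 : R.H.obj X ⟶ R.H.obj X)
        simpa using this
      rw [h3, bx_zero_left, h4, Limits.zero_comp, Limits.comp_zero]
  rw [← PT_map, Functor.map_comp, Functor.map_comp, Functor.map_comp, hν, mat_comp R he]
  have h5 : R.H.map (β_ X M).hom ≫ mat R e (fun l i => ∑ k, N l k * N k i) ≫ R.H.map (β_ M X).hom =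
      ∑ i, ∑ l, bx R (ModuleCat.ofHom (W l i)) (e i l) := by
    simp only [mat, Preadditive.sum_comp, Preadditive.comp_sum]
    exact Finset.sum_congr rfl fun i _ => Finset.sum_congr rfl fun l _ => hterm i l
  rw [h5, PT_sum]
  simp only [PT_sum, PT_bx R h2, e_par R he]
  have h6 : ∀ i l, (LinearMap.trace K (R.H.obj M) (sg K (o l) • e i l).hom) •
      (ModuleCat.ofHom (W l i) : R.H.obj X ⟶ R.H.obj X) =
      if i = l then sg K (o i) • (ModuleCat.ofHom (W i i) : R.H.obj X ⟶ R.H.obj X) else 0 := by
    intro i l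
    rw [ModuleCat.hom_smul, map_smul, he.tr, smul_eq_mul]
    split_ifs with h
    · subst h
      rw [mul_one]
    · rw [mul_zero, zero_smul]
  simp only [h6]
  have h7 : ∀ i, ∑ l, (if i = l then sg K (o i) •
      (ModuleCat.ofHom (W i i) : R.H.obj X ⟶ R.H.obj X) else 0) =
      sg K (o i) • (ModuleCat.ofHom (W i i) : R.H.obj X ⟶ R.H.obj X) := by
    intro i
    rw [Finset.sum_ite_eq Finset.univ i, if_pos (Finset.mem_univ i)]
  simp only [h7]
  rw [ModuleCat.hom_sum]
  have h8 : ∀ i, (sg K (o i) • (ModuleCat.ofHom (W i i) : R.H.obj X ⟶ R.H.obj X)).hom =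
      sg K (o i) • ∑ k with o k ≠ o i, A i k * A k i := by
    intro i
    rw [ModuleCat.hom_smul, ModuleCat.hom_ofHom, hW, Finset.sum_filter]
    congr 1
    refine Finset.sum_congr rfl fun k _ => ?_
    rw [hN]
    by_cases h : o k = o i
    · simp [h]
    · have h' : ¬ o i = o k := fun h9 => h h9.symm
      simp [h, h']
  simp only [h8]
  rw [ZZ, XX, XX, Finset.sum_filter, Finset.sum_filter, ← Finset.sum_sub_distrib]
  refine Finset.sum_congr rfl fun i _ => ?_
  cases hi : o i
  · simp [sg, hi]
  · simp [sg, hi]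

end Pool.Agent.W2helper46.SG
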