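import Pool.Agent.W2helper37.SG.Stm3
import Pool.Agent.W2helper82.SG.Tra

/-!
# Project SG part 2, piece TRO: the partial trace
-/

set_option autoImplicit false
set_option linter.unusedSectionVars false
set_option linter.unusedSimpArgs false
set_option backward.isDefEq.respectTransparency false
set_option backward.defeqAttrib.useBackward true

open CategoryTheory Limits MonoidalCategory
open Pool.Agent.Y112.SR Pool.Agent.Y112.KD Pool.Agent.Y112.SC
open Pool.Agent.W2helper37.SG Pool.Agent.W2helper82.SG

namespace Pool.Agent.W2helper46.SG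

universe v u w

theorem p_tro : P_TRO.{v, u, w} := by
  intro C _ _ _ _ _ _ _ _ K _ R M X ι _ _ o e U A hpar g hg ν z hν hz n
  have hK := R_charZero R
  have hfin := R.finite X
  obtain ⟨w, hw⟩ := exists_pow R z n
  rw [hz] at hw
  set Ao : ι → ι → Module.End K (R.H.obj X) := fun k i => if o k ≠ o i then A k i else 0 with hAo
  have hν' : R.H.map ν = ∑ i, ∑ k, bx R (e i k) (ModuleCat.ofHom (Ao k i)) := hν
  -- the coefficients
  have hc1 : ∀ l i, ∑ k, LinearMap.trace K (R.H.obj X) (ZZ o A ^ n * (Ao l k * Ao k i)) =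
      if o i = o l then ∑ j with o j ≠ o l, LinearMap.trace K _ (ZZ o A ^ n * (A l j * A j i))
        else 0 := by
    intro l i
    by_cases hli : o i = o l
    · rw [if_pos hli, Finset.sum_filter]
      refine Finset.sum_congr rfl fun k _ => ?_
      by_cases hk : o k ≠ o l
      · have h1 : Ao l k = A l k := if_pos (Ne.symm hk)
        have h2 : Ao k i = A k i := if_pos (by rw [hli]; exact hk)
        rw [if_pos hk, h1, h2]
      · have h1 : Ao l k = 0 := if_neg (by rw [not_not] at hk ⊢; exact hk.symm)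
        rw [if_neg hk, h1, zero_mul, mul_zero, map_zero]
    · rw [if_neg hli]
      refine Finset.sum_eq_zero fun k _ => ?_
      by_cases hk : o l ≠ o k
      · have h2 : Ao k i = 0 := by
          refine if_neg (fun h => ?_)
          revert hli hk h
          cases o l <;> cases o k <;> cases o i <;> simp
        rw [h2, mul_zero, mul_zero, map_zero]
      · have h1 : Ao l k = 0 := if_neg hk
        rw [h1, zero_mul, mul_zero, map_zero]
  have hpp : (R.par X).hom * (R.par X).hom = (1 : Module.End K (R.H.obj X)) := by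
    have h1 := congrArg ModuleCat.Hom.hom (R.par_sq X)
    rw [ModuleCat.hom_comp] at h1
    exact h1
  refine ⟨ptr (ν ≫ ν ≫ M ◁ (w ≫ g)), ?_⟩
  rw [← PT_map, Functor.map_comp, Functor.map_comp, map_whiskerLeft_eq, ← Category.assoc, hν',
    comp_key R U, comp_right, PT_key, Finset.sum_comm]
  refine Finset.sum_congr rfl fun l _ => ?_
  rw [Finset.sum_filter]
  refine Finset.sum_congr rfl fun i _ => ?_
  have h0 : LinearMap.trace K (R.H.obj X) (((∑ k, (ModuleCat.ofHom (Ao k i) :
      R.H.obj X ⟶ R.H.obj X) ≫ ModuleCat.ofHom (Ao l k)) ≫ R.H.map (w ≫ g)) ≫ R.par X).hom =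
      ∑ k, LinearMap.trace K (R.H.obj X) (ZZ o A ^ n * (Ao l k * Ao k i)) := by
    rw [← map_sum]
    congr 1
    rw [Functor.map_comp, hg, ModuleCat.hom_comp, ModuleCat.hom_comp, ModuleCat.hom_comp, hw,
      ModuleCat.hom_sum]
    have h1 : ∀ k, (ModuleCat.ofHom (Ao k i) ≫ ModuleCat.ofHom (Ao l k)).hom = Ao l k * Ao k i :=
      fun k => rfl
    rw [Finset.sum_congr rfl fun k _ => h1 k]
    change (R.par X).hom * (((R.par X).hom * (ZZ o A ^ n)) * (∑ k, Ao l k * Ao k i)) = _
    rw [← mul_assoc, ← mul_assoc, hpp, one_mul, Finset.mul_sum]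
  have h2 : LinearMap.trace K (R.H.obj X) (((∑ k, (ModuleCat.ofHom (Ao k i) :
      R.H.obj X ⟶ R.H.obj X) ≫ ModuleCat.ofHom (Ao l k)) ≫ R.H.map (w ≫ g)) ≫ R.par X).hom • e i l
      = if o i = o l then (∑ j with o j ≠ o l,
        LinearMap.trace K _ (ZZ o A ^ n * (A l j * A j i))) • e i l else 0 := by
    rw [h0, hc1]
    split_ifs with h
    · rfl
    · rw [zero_smul]
  exact h2

end Pool.Agent.W2helper46.SG
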